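import Mathlib

namespace Pool.Agent.Results.MP_f0ff61_co.SpectrumDisproof

/-- The vectors of `F_2^r`. -/
abbrev V (r : ℕ) : Type := Fin r → ZMod 2

/-- A generator multiset on `F_2^r`: a finite list of nonzero vectors (repetitions allowed)
which spans `F_2^r`. -/
structure GenMultiset (r : ℕ) where
  vecs : List (V r)
  ne_zero : ∀ v ∈ vecs, v ≠ 0
  spans : Submodule.span (ZMod 2) {v : V r | v ∈ vecs} = ⊤

/-- The multiplicity of a vector. -/
def mult {r : ℕ} (M : GenMultiset r) (v : V r) : ℕ := M.vecs.count v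

/-- The gcd of the positive multiplicities. -/
def gcdMult {r : ℕ} (M : GenMultiset r) : ℕ :=
  (Finset.univ.filter (fun v : V r => 0 < mult M v)).gcd (mult M)

/-- The Laplacian of the Cayley graph `G(F_2^r, M)`. -/
def laplacian {r : ℕ} (M : GenMultiset r) : Matrix (V r) (V r) ℤ :=
  fun u w => if u = w then (M.vecs.length : ℤ)
    else -((M.vecs.countP (fun v => decide (u + v = w)) : ℕ) : ℤ)

/-- The cokernel of the Laplacian over the integers. -/
abbrev Coker {r : ℕ} (M : GenMultiset r) : Type :=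
  (V r → ℤ) ⧸ LinearMap.range (Matrix.mulVecLin (laplacian M))

/-- The sandpile group: the torsion subgroup of the cokernel of the Laplacian. -/
abbrev Sandpile {r : ℕ} (M : GenMultiset r) : Type :=
  Submodule.torsion ℤ (Coker M)

/-- The eigenvalue `lambda_u = 2 * #{i : u . v_i = 1}` of the Laplacian. -/
def eigenvalue {r : ℕ} (M : GenMultiset r) (u : V r) : ℕ :=
  2 * M.vecs.countP (fun v => decide (u ⬝ᵥ v = 1))

/-- The multiset of the eigenvalues, with their multiplicities. -/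
def eigenMultiset {r : ℕ} (M : GenMultiset r) : Multiset ℕ :=
  (Finset.univ : Finset (V r)).val.map (eigenvalue M)

/-- The set of the eigenvalues. -/
def eigenSet {r : ℕ} (M : GenMultiset r) : Set ℕ := Set.range (eigenvalue M)

/-- Enumeration of `F_2^3`. -/
def e : Fin 8 → V 3 :=
  ![![0, 0, 0], ![1, 0, 0], ![0, 1, 0], ![1, 1, 0], ![0, 0, 1], ![1, 0, 1], ![0, 1, 1], ![1, 1, 1]]

theorem e_bij : Function.Bijective e := by
  decide

noncomputable def eE : Fin 8 ≃ V 3 := Equiv.ofBijective e e_bij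

theorem span_aux (l : List (V 3)) (h0 : ![1, 0, 0] ∈ l) (h1 : ![0, 1, 0] ∈ l)
    (h2 : ![0, 0, 1] ∈ l) : Submodule.span (ZMod 2) {v : V 3 | v ∈ l} = ⊤ := by
  rw [eq_top_iff]
  intro x _
  have hx : x = x 0 • (![1, 0, 0] : V 3) + x 1 • (![0, 1, 0] : V 3) + x 2 • (![0, 0, 1] : V 3) := by
    ext i
    fin_cases i <;> simp
  rw [hx]
  refine Submodule.add_mem _ (Submodule.add_mem _ ?_ ?_) ?_
  · exact Submodule.smul_mem _ _ (Submodule.subset_span h0)
  · exact Submodule.smul_mem _ _ (Submodule.subset_span h1)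
  · exact Submodule.smul_mem _ _ (Submodule.subset_span h2)

/-- Two copies of each unit vector and one copy of each sum of two unit vectors. -/
def MA : GenMultiset 3 where
  vecs := [![1, 0, 0], ![1, 0, 0], ![0, 1, 0], ![0, 1, 0], ![0, 0, 1], ![0, 0, 1],
    ![1, 1, 0], ![1, 0, 1], ![0, 1, 1]]
  ne_zero := by decide
  spans := span_aux _ (by decide) (by decide) (by decide)

/-- All nonzero vectors, the first unit vector three times. -/
def MB : GenMultiset 3 where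
  vecs := [![1, 0, 0], ![1, 0, 0], ![1, 0, 0], ![0, 1, 0], ![1, 1, 0], ![0, 0, 1],
    ![1, 0, 1], ![0, 1, 1], ![1, 1, 1]]
  ne_zero := by decide
  spans := span_aux _ (by decide) (by decide) (by decide)

def LA : Fin 8 → Fin 8 → ℤ :=
  ![![9, -2, -2, -1, -2, -1, -1, 0],
    ![-2, 9, -1, -2, -1, -2, 0, -1],
    ![-2, -1, 9, -2, -1, 0, -2, -1],
    ![-1, -2, -2, 9, 0, -1, -1, -2],
    ![-2, -1, -1, 0, 9, -2, -2, -1],
    ![-1, -2, 0, -1, -2, 9, -1, -2],
    ![-1, 0, -2, -1, -2, -1, 9, -2],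
    ![0, -1, -1, -2, -1, -2, -2, 9]]

def LB : Fin 8 → Fin 8 → ℤ :=
  ![![9, -3, -1, -1, -1, -1, -1, -1],
    ![-3, 9, -1, -1, -1, -1, -1, -1],
    ![-1, -1, 9, -3, -1, -1, -1, -1],
    ![-1, -1, -3, 9, -1, -1, -1, -1],
    ![-1, -1, -1, -1, 9, -3, -1, -1],
    ![-1, -1, -1, -1, -3, 9, -1, -1],
    ![-1, -1, -1, -1, -1, -1, 9, -3],
    ![-1, -1, -1, -1, -1, -1, -3, 9]]

theorem lapA : ∀ i j : Fin 8, laplacian MA (e i) (e j) = LA i j := by
  decide

theorem lapB : ∀ i j : Fin 8, laplacian MB (e i) (e j) = LB i j := by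
  decide

theorem mulVec_gen (M : GenMultiset 3) (y : V 3 → ℤ) (i : Fin 8) :
    (laplacian M).mulVec y (e i) = ∑ j : Fin 8, laplacian M (e i) (e j) * y (e j) := by
  rw [Matrix.mulVec, dotProduct]
  exact (Fintype.sum_equiv eE (fun j : Fin 8 => laplacian M (e i) (e j) * y (e j)) _
    (fun j => rfl)).symm

theorem mulVecA (y : V 3 → ℤ) (i : Fin 8) :
    (laplacian MA).mulVec y (e i) = ∑ j : Fin 8, LA i j * y (e j) := by
  rw [mulVec_gen]
  exact Finset.sum_congr rfl (fun j _ => by rw [lapA])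

theorem mulVecB (y : V 3 → ℤ) (i : Fin 8) :
    (laplacian MB).mulVec y (e i) = ∑ j : Fin 8, LB i j * y (e j) := by
  rw [mulVec_gen]
  exact Finset.sum_congr rfl (fun j _ => by rw [lapB])

theorem funext_e {y y' : V 3 → ℤ} (h : ∀ i : Fin 8, y (e i) = y' (e i)) : y = y' := by
  ext x
  obtain ⟨i, rfl⟩ := e_bij.2 x
  exact h i

/-- Explicit form of `L y = x` for the first example. -/
theorem eqsA {x y : V 3 → ℤ} (h : (laplacian MA).mulVec y = x) :
    ∀ i : Fin 8, ∑ j : Fin 8, LA i j * y (e j) = x (e i) := by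
  intro i
  rw [← mulVecA, h]

theorem eqsB {x y : V 3 → ℤ} (h : (laplacian MB).mulVec y = x) :
    ∀ i : Fin 8, ∑ j : Fin 8, LB i j * y (e j) = x (e i) := by
  intro i
  rw [← mulVecB, h]

theorem sumA : ∀ i : Fin 8, ∑ j : Fin 8, LA i j = 0 := by
  decide

theorem par1 (p q : ℤ) (h : p % 2 = 0 ↔ q % 2 = 0) : (p - q) % 2 = 0 := by omega

theorem par6 (a0 a1 a2 a3 a4 a5 a6 a7 b0 b1 b2 b3 b4 b5 b6 b7 x y : ℤ)
    (h : 9 * a0 + -2 * a1 + -2 * a2 + -1 * a3 + -2 * a4 + -1 * a5 + -1 * a6 + 0 * a7 = 2 * x)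
    (h' : 9 * b0 + -2 * b1 + -2 * b2 + -1 * b3 + -2 * b4 + -1 * b5 + -1 * b6 + 0 * b7 = 2 * y)
    (h0 : a0 = 0) (h0' : b0 = 0) (c3 : (a3 - b3) % 2 = 0) (c5 : (a5 - b5) % 2 = 0) :
    (a6 - b6) % 2 = 0 := by omega

theorem par7 (a0 a1 a2 a3 a4 a5 a6 a7 b0 b1 b2 b3 b4 b5 b6 b7 x y : ℤ)
    (h : 0 * a0 + -1 * a1 + -1 * a2 + -2 * a3 + -1 * a4 + -2 * a5 + -2 * a6 + 9 * a7 = 2 * x)
    (h' : 0 * b0 + -1 * b1 + -1 * b2 + -2 * b3 + -1 * b4 + -2 * b5 + -2 * b6 + 9 * b7 = 2 * y)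
    (c1 : (a1 - b1) % 2 = 0) (c2 : (a2 - b2) % 2 = 0) (c4 : (a4 - b4) % 2 = 0) :
    (a7 - b7) % 2 = 0 := by omega

theorem parA (a b : Fin 8 → ℤ) (x y x' y' : ℤ)
    (a0 : ∑ j : Fin 8, LA 0 j * a j = 2 * x) (a7 : ∑ j : Fin 8, LA 7 j * a j = 2 * y)
    (b0 : ∑ j : Fin 8, LA 0 j * b j = 2 * x') (b7 : ∑ j : Fin 8, LA 7 j * b j = 2 * y')
    (za : a 0 = 0) (zb : b 0 = 0)
    (g0 : a 1 % 2 = 0 ↔ b 1 % 2 = 0) (g1 : a 2 % 2 = 0 ↔ b 2 % 2 = 0)
    (g2 : a 3 % 2 = 0 ↔ b 3 % 2 = 0) (g3 : a 4 % 2 = 0 ↔ b 4 % 2 = 0)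
    (g4 : a 5 % 2 = 0 ↔ b 5 % 2 = 0) : ∀ i : Fin 8, (a i - b i) % 2 = 0 := by
  rw [Fin.sum_univ_eight] at a0 a7 b0 b7
  have c1 := par1 _ _ g0
  have c2 := par1 _ _ g1
  have c3 := par1 _ _ g2
  have c4 := par1 _ _ g3
  have c5 := par1 _ _ g4
  have c6 : (a 6 - b 6) % 2 = 0 := par6 _ _ _ _ _ _ _ _ _ _ _ _ _ _ _ _ _ _ a0 b0 za zb c3 c5
  have c7 : (a 7 - b 7) % 2 = 0 := par7 _ _ _ _ _ _ _ _ _ _ _ _ _ _ _ _ _ _ a7 b7 c1 c2 c4
  intro i
  fin_cases i
  · show (a 0 - b 0) % 2 = 0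
    rw [za, zb]; rfl
  · exact c1
  · exact c2
  · exact c3
  · exact c4
  · exact c5
  · exact c6
  · exact c7

/-- Every element of the cokernel killed by 2 comes from some `y` with `L y` even and `y 0 = 0`. -/
theorem repA (x : Coker MA) (hx : (2 : ℤ) • x = 0) :
    ∃ xt y : V 3 → ℤ, Submodule.Quotient.mk xt = x ∧
      (∀ i : Fin 8, ∑ j : Fin 8, LA i j * y (e j) = 2 * xt (e i)) ∧ y (e 0) = 0 := by
  obtain ⟨xt, rfl⟩ := Submodule.Quotient.mk_surjective _ x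
  rw [← Submodule.Quotient.mk_smul, Submodule.Quotient.mk_eq_zero] at hx
  obtain ⟨y, hy⟩ := hx
  have hy' := eqsA (x := (2 : ℤ) • xt) (y := y) hy
  refine ⟨xt, fun v => y v - y (e 0), rfl, ?_, by simp⟩
  intro i
  have h1 := hy' i
  have h2 : ∑ j : Fin 8, LA i j = 0 := sumA i
  simp only [mul_sub, Finset.sum_sub_distrib, ← Finset.sum_mul, h2]
  simpa using h1

theorem injA : ∃ ι : {x : Coker MA // (2 : ℤ) • x = 0} → (Fin 5 → Bool),
    Function.Injective ι := by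
  choose xt y h1 h2 h3 using repA
  refine ⟨fun x => ![decide (y x.1 x.2 (e 1) % 2 = 0), decide (y x.1 x.2 (e 2) % 2 = 0),
    decide (y x.1 x.2 (e 3) % 2 = 0), decide (y x.1 x.2 (e 4) % 2 = 0),
    decide (y x.1 x.2 (e 5) % 2 = 0)], ?_⟩
  rintro ⟨a, ha⟩ ⟨b, hb⟩ hab
  have g0 := congrFun hab 0
  have g1 := congrFun hab 1
  have g2 := congrFun hab 2
  have g3 := congrFun hab 3
  have g4 := congrFun hab 4
  simp only [Matrix.cons_val_zero, Matrix.cons_val_one, Matrix.cons_val, decide_eq_decide]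
    at g0 g1 g2 g3 g4
  have hpar : ∀ i : Fin 8, (y a ha (e i) - y b hb (e i)) % 2 = 0 :=
    parA (fun i => y a ha (e i)) (fun i => y b hb (e i)) _ _ _ _ (h2 a ha 0) (h2 a ha 7)
      (h2 b hb 0) (h2 b hb 7) (h3 a ha) (h3 b hb) g0 g1 g2 g3 g4
  have ka := h1 a ha
  have kb := h1 b hb
  have ea := h2 a ha
  have eb := h2 b hb
  have hz : ∀ i : Fin 8, y a ha (e i) - y b hb (e i) =
      2 * ((y a ha (e i) - y b hb (e i)) / 2) := by
    intro i
    have := hpar i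
    generalize y a ha (e i) - y b hb (e i) = t at *
    omega
  apply Subtype.ext
  show a = b
  rw [← ka, ← kb, Submodule.Quotient.eq]
  refine ⟨fun v => (y a ha v - y b hb v) / 2, ?_⟩
  apply funext_e
  intro i
  rw [Matrix.mulVecLin_apply, mulVecA]
  have e1 := ea i
  have e2 := eb i
  have e3 : 2 * ∑ j : Fin 8, LA i j * ((y a ha (e j) - y b hb (e j)) / 2)
      = 2 * xt a ha (e i) - 2 * xt b hb (e i) := by
    rw [← e1, ← e2, Finset.mul_sum, ← Finset.sum_sub_distrib]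
    refine Finset.sum_congr rfl (fun j _ => ?_)
    have := hz j
    calc 2 * (LA i j * ((y a ha (e j) - y b hb (e j)) / 2))
        = LA i j * (2 * ((y a ha (e j) - y b hb (e j)) / 2)) := by ring
      _ = LA i j * (y a ha (e j) - y b hb (e j)) := by rw [← this]
      _ = _ := by ring
  simp only [Pi.sub_apply]
  linarith

theorem kerB (w0 w1 w2 w3 w4 w5 w6 w7 : ℤ)
    (h0 : 9 * w0 + -3 * w1 + -1 * w2 + -1 * w3 + -1 * w4 + -1 * w5 + -1 * w6 + -1 * w7 = 0)
    (h1 : -3 * w0 + 9 * w1 + -1 * w2 + -1 * w3 + -1 * w4 + -1 * w5 + -1 * w6 + -1 * w7 = 0)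
    (h2 : -1 * w0 + -1 * w1 + 9 * w2 + -3 * w3 + -1 * w4 + -1 * w5 + -1 * w6 + -1 * w7 = 0)
    (h3 : -1 * w0 + -1 * w1 + -3 * w2 + 9 * w3 + -1 * w4 + -1 * w5 + -1 * w6 + -1 * w7 = 0)
    (h4 : -1 * w0 + -1 * w1 + -1 * w2 + -1 * w3 + 9 * w4 + -3 * w5 + -1 * w6 + -1 * w7 = 0)
    (h5 : -1 * w0 + -1 * w1 + -1 * w2 + -1 * w3 + -3 * w4 + 9 * w5 + -1 * w6 + -1 * w7 = 0)
    (h6 : -1 * w0 + -1 * w1 + -1 * w2 + -1 * w3 + -1 * w4 + -1 * w5 + 9 * w6 + -3 * w7 = 0) :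
    w1 = w0 ∧ w2 = w0 ∧ w3 = w0 ∧ w4 = w0 ∧ w5 = w0 ∧ w6 = w0 := by
  refine ⟨by linarith, by linarith, by linarith, by linarith, by linarith, by linarith⟩

/-- The 0/1 vector attached to six bits, with even sum. -/
def yb (b : Fin 6 → Bool) : Fin 8 → ℤ :=
  ![0, (b 0).toNat, (b 1).toNat, (b 2).toNat, (b 3).toNat, (b 4).toNat, (b 5).toNat,
    (((b 0).toNat + (b 1).toNat + (b 2).toNat + (b 3).toNat + (b 4).toNat + (b 5).toNat) % 2 : ℕ)]

theorem evB : ∀ (b : Fin 6 → Bool) (i : Fin 8), (∑ j : Fin 8, LB i j * yb b j) % 2 = 0 := by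
  intro b i
  have hLB : ∀ i j : Fin 8, LB i j % 2 = 1 := by decide
  have h1 : ∀ j : Fin 8, (LB i j * yb b j) % 2 = (yb b j) % 2 := by
    intro j
    rw [Int.mul_emod, hLB, one_mul, Int.emod_emod]
  rw [Finset.sum_int_mod, Finset.sum_congr rfl (fun j _ => h1 j), ← Finset.sum_int_mod,
    Fin.sum_univ_eight]
  have t0 : yb b 0 = 0 := rfl
  have t1 : yb b 1 = (b 0).toNat := rfl
  have t2 : yb b 2 = (b 1).toNat := rfl
  have t3 : yb b 3 = (b 2).toNat := rfl
  have t4 : yb b 4 = (b 3).toNat := rfl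
  have t5 : yb b 5 = (b 4).toNat := rfl
  have t6 : yb b 6 = (b 5).toNat := rfl
  have t7 : yb b 7 = (((b 0).toNat + (b 1).toNat + (b 2).toNat + (b 3).toNat + (b 4).toNat
    + (b 5).toNat) % 2 : ℕ) := rfl
  rw [t0, t1, t2, t3, t4, t5, t6, t7]
  generalize (b 0).toNat = c0
  generalize (b 1).toNat = c1
  generalize (b 2).toNat = c2
  generalize (b 3).toNat = c3
  generalize (b 4).toNat = c4
  generalize (b 5).toNat = c5
  omega

theorem bool_of_even (s t : Bool) (z c : ℤ) (h : (s.toNat : ℤ) - (t.toNat : ℤ) - 2 * z = c)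
    (hc : c % 2 = 0) : s = t := by
  cases s <;> cases t <;> simp at h ⊢ <;> omega

theorem injB : ∃ κ : (Fin 6 → Bool) → {x : Coker MB // (2 : ℤ) • x = 0},
    Function.Injective κ := by
  have key : ∀ b : Fin 6 → Bool, ∀ i : Fin 8,
      2 * ((∑ j : Fin 8, LB i j * yb b j) / 2) = ∑ j : Fin 8, LB i j * yb b j := by
    intro b i
    have := evB b i
    generalize ∑ j : Fin 8, LB i j * yb b j = t at *
    omega
  have hmul : ∀ b : Fin 6 → Bool, (laplacian MB).mulVec (fun v => yb b (eE.symm v)) =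
      (2 : ℤ) • (fun v => (∑ j : Fin 8, LB (eE.symm v) j * yb b j) / 2 : V 3 → ℤ) := by
    intro b
    apply funext_e
    intro i
    have hs : ∀ j : Fin 8, eE.symm (e j) = j := fun j => eE.symm_apply_apply j
    rw [mulVecB]
    simp only [Pi.smul_apply, smul_eq_mul, hs]
    exact (key b i).symm
  refine ⟨fun b => ⟨Submodule.Quotient.mk
    (fun v => (∑ j : Fin 8, LB (eE.symm v) j * yb b j) / 2), ?_⟩, ?_⟩
  · rw [← Submodule.Quotient.mk_smul, Submodule.Quotient.mk_eq_zero]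
    exact ⟨fun v => yb b (eE.symm v), hmul b⟩
  · intro b b' hbb
    have h := congrArg Subtype.val hbb
    simp only at h
    rw [Submodule.Quotient.eq] at h
    obtain ⟨z, hz⟩ := h
    have hs : ∀ j : Fin 8, eE.symm (e j) = j := fun j => eE.symm_apply_apply j
    have hz' : ∀ i : Fin 8, ∑ j : Fin 8, LB i j * (yb b j - yb b' j - 2 * z (e j)) = 0 := by
      intro i
      have h1 := congrFun hz (e i)
      rw [Matrix.mulVecLin_apply, mulVecB] at h1
      simp only [Pi.sub_apply, hs] at h1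
      have h2 := key b i
      have h3 := key b' i
      have h4 : ∑ j : Fin 8, LB i j * (2 * z (e j)) = 2 * ∑ j : Fin 8, LB i j * z (e j) := by
        rw [Finset.mul_sum]
        exact Finset.sum_congr rfl (fun j _ => by ring)
      simp only [mul_sub, Finset.sum_sub_distrib]
      rw [h4, h1]
      linarith
    have q0 := hz' 0
    have q1 := hz' 1
    have q2 := hz' 2
    have q3 := hz' 3
    have q4 := hz' 4
    have q5 := hz' 5
    have q6 := hz' 6
    rw [Fin.sum_univ_eight] at q0 q1 q2 q3 q4 q5 q6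
    obtain ⟨r1, r2, r3, r4, r5, r6⟩ := kerB _ _ _ _ _ _ _ _ q0 q1 q2 q3 q4 q5 q6
    have hc : (yb b 0 - yb b' 0 - 2 * z (e 0)) % 2 = 0 := by
      have t0 : yb b 0 = 0 := rfl
      have t0' : yb b' 0 = 0 := rfl
      rw [t0, t0']
      generalize z (e 0) = t
      omega
    funext k
    fin_cases k
    · exact bool_of_even _ _ _ _ r1 hc
    · exact bool_of_even _ _ _ _ r2 hc
    · exact bool_of_even _ _ _ _ r3 hc
    · exact bool_of_even _ _ _ _ r4 hc
    · exact bool_of_even _ _ _ _ r5 hc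
    · exact bool_of_even _ _ _ _ r6 hc

theorem noIso : IsEmpty (Sandpile MA ≃+ Sandpile MB) := by
  constructor
  intro φ
  obtain ⟨ι, hι⟩ := injA
  obtain ⟨κ, hκ⟩ := injB
  have htors : ∀ b, (κ b).1 ∈ Submodule.torsion ℤ (Coker MB) := by
    intro b
    rw [Submodule.mem_torsion_iff]
    exact ⟨⟨2, mem_nonZeroDivisors_of_ne_zero (by norm_num)⟩, (κ b).2⟩
  have h2 : ∀ b, (2 : ℤ) • (φ.symm ⟨(κ b).1, htors b⟩ : Coker MA) = 0 := by
    intro b
    have h3 : (2 : ℤ) • (⟨(κ b).1, htors b⟩ : Sandpile MB) = 0 := by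
      apply Subtype.ext
      exact (κ b).2
    have h4 : (2 : ℤ) • (φ.symm ⟨(κ b).1, htors b⟩) = 0 := by
      rw [← map_zsmul, h3, map_zero]
    exact congrArg Subtype.val h4
  let f : (Fin 6 → Bool) → (Fin 5 → Bool) := fun b => ι ⟨_, h2 b⟩
  have hf : Function.Injective f := by
    intro b b' h
    have h5 := hι h
    have h6 := congrArg Subtype.val h5
    have h7 : φ.symm ⟨(κ b).1, htors b⟩ = φ.symm ⟨(κ b').1, htors b'⟩ := Subtype.ext h6
    have h8 := φ.symm.injective h7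
    have h9 : (κ b).1 = (κ b').1 := congrArg (fun t : Sandpile MB => (t : Coker MB)) h8
    exact hκ (Subtype.ext h9)
  have := Fintype.card_le_of_injective f hf
  simp at this

theorem spec_eq : eigenMultiset MA = eigenMultiset MB := by
  decide

theorem result : ∃ M M' : GenMultiset 3, gcdMult M = 1 ∧ gcdMult M' = 1 ∧
    eigenSet M = eigenSet M' ∧ eigenMultiset M = eigenMultiset M' ∧
    IsEmpty (Sandpile M ≃+ Sandpile M') := by
  refine ⟨MA, MB, by decide, by decide, ?_, spec_eq, noIso⟩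
  have h := spec_eq
  ext n
  have h1 : n ∈ eigenMultiset MA ↔ n ∈ eigenMultiset MB := by rw [h]
  simpa [eigenMultiset, eigenSet] using h1

end Pool.Agent.Results.MP_f0ff61_co.SpectrumDisproof
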